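import Pool.Agent.R207.AG4

/-!
# Positive solutions of `Δψ = (|ψ|^{2p-2} - |x|⁻¹) ψ` on `ℝ³` for every `p > 1`

For every real `p > 1` (in particular for `p ∈ (1, 3/2] ∪ [2, ∞)`) the equation has a solution in
`M` which is positive everywhere. The proof finds a radial solution between the explicit
subsolution `ε e^{-|x|/2}` and the explicit supersolution `K (1 + e^{-|x|}) / 2`, by monotone
iteration with the Green function of `m² - d²/dr²` on the half line.
-/

open MeasureTheory Set Filter Topology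
open scoped RealInnerProductSpace ContDiff

namespace Pool.Agent.Results.MP_30ce6b_an.PositiveSolution

abbrev E3 := EuclideanSpace ℝ (Fin 3)

/-- `V` is the distributional gradient of `ψ` on `ℝ³`. -/
def IsWeakGradient (ψ : E3 → ℝ) (V : E3 → E3) : Prop :=
  LocallyIntegrable V ∧
  ∀ η : E3 → ℝ, ContDiff ℝ ∞ η → HasCompactSupport η → ∀ v : E3,
    ∫ x, ψ x * fderiv ℝ η x v = -∫ x, η x * ⟪V x, v⟫

/-- `ψ ∈ M`, with distributional gradient `V`: `ψ ∈ L¹_loc` and `∇ψ = V ∈ L²_loc`. -/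
def MemM (ψ : E3 → ℝ) (V : E3 → E3) : Prop :=
  LocallyIntegrable ψ ∧ IsWeakGradient ψ V ∧ LocallyIntegrable (fun x => ‖V x‖ ^ 2)

/-- `ψ` is a solution of `(E_p)`: it lies in `M`, `|ψ|^{2p-1} ∈ L¹_loc`, and the equation holds in
the sense of distributions on all of `ℝ³` (with `ψ/|x|` also required to be in `L¹_loc`). -/
def IsSolution (p : ℝ) (ψ : E3 → ℝ) : Prop :=
  ∃ V : E3 → E3, MemM ψ V ∧ LocallyIntegrable (fun x => |ψ x| ^ (2 * p - 1)) ∧
    LocallyIntegrable (fun x => ‖x‖⁻¹ * ψ x) ∧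
    ∀ η : E3 → ℝ, ContDiff ℝ ∞ η → HasCompactSupport η →
      (∫ x, fderiv ℝ η x (V x)) + ∫ x, η x * ((|ψ x| ^ (2 * p - 2) - ‖x‖⁻¹) * ψ x) = 0

/-- For every `p > 1` there is a solution `ψ ∈ M` of `(E_p)` that is positive everywhere; it is
moreover Lipschitz, radial, and bounded above by a constant and below by `ε e^{-|x|/2}`. -/
theorem result (p : ℝ) (hp : 1 < p) :
    ∃ ψ : E3 → ℝ, IsSolution p ψ ∧ (∀ x, 0 < ψ x) ∧ (∃ C, LipschitzWith C ψ) ∧
      (∀ x y, ‖x‖ = ‖y‖ → ψ x = ψ y) ∧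
      ∃ ε K : ℝ, 0 < ε ∧ ∀ x, ε * Real.exp (-(1 / 2) * ‖x‖) ≤ ψ x ∧ ψ x ≤ K := by
  have hα : 0 < 2 * p - 2 := by linarith
  obtain ⟨f, f1, C, K, ε, hε, hl, hf, hf1, hW, hb⟩ := Pool.Agent.R207.AG.profile hα
  have hpos : ∀ r, 0 ≤ r → 0 < f r := fun r hr =>
    lt_of_lt_of_le (mul_pos hε (Real.exp_pos _)) (hb r hr).1
  have hK0 : 0 < K := (hpos 0 le_rfl).trans_le (hb 0 le_rfl).2
  have hcψ : Continuous (fun x : E3 => f ‖x‖) := hl.continuous.comp continuous_norm
  have hVm : AEStronglyMeasurable (Pool.Agent.R207.AG.VV f1) volume :=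
    Pool.Agent.R207.AG.aesm_of_cont fun x hx => Pool.Agent.R207.AG.VV_cont hW hx
  have hlc : ∀ c : ℝ, LocallyIntegrable (fun _ : E3 => c) := fun c => continuous_const.locallyIntegrable
  have hinv : LocallyIntegrable (fun x : E3 => ‖x‖⁻¹ * f ‖x‖) := by
    intro x
    refine ⟨Metric.ball 0 (‖x‖ + 1), Metric.isOpen_ball.mem_nhds (by simp), ?_⟩
    refine Integrable.mono' ((Pool.Agent.R207.AG.inv_norm_int (‖x‖ + 1)).const_mul K) ?_ ?_
    · exact ((continuous_norm.measurable.inv).mul hcψ.measurable).aestronglyMeasurable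
    · refine Filter.Eventually.of_forall fun y => ?_
      rw [norm_mul, Real.norm_eq_abs, Real.norm_eq_abs, abs_of_pos (hpos _ (norm_nonneg y)),
        abs_of_nonneg (inv_nonneg.mpr (norm_nonneg y)), mul_comm]
      exact mul_le_mul_of_nonneg_right (hb _ (norm_nonneg y)).2 (inv_nonneg.mpr (norm_nonneg y))
  refine ⟨fun x => f ‖x‖, ⟨Pool.Agent.R207.AG.VV f1, ⟨hcψ.locallyIntegrable, ⟨?_, ?_⟩, ?_⟩, ?_, hinv, ?_⟩,
    fun x => hpos _ (norm_nonneg x), ⟨_, hl.comp lipschitzWith_one_norm⟩, ?_, ε, K, hε,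
    fun x => hb _ (norm_nonneg x)⟩
  · refine (hlc C).mono hVm (Filter.Eventually.of_forall fun x => ?_)
    rw [Real.norm_eq_abs, abs_of_nonneg (NNReal.coe_nonneg C)]
    exact Pool.Agent.R207.AG.VV_norm hf1 x
  · intro η hη hc v
    exact Pool.Agent.R207.AG.weak_grad hl hf hη hc v
  · refine (hlc ((C : ℝ) ^ 2)).mono (hVm.norm.pow 2) (Filter.Eventually.of_forall fun x => ?_)
    rw [Real.norm_eq_abs, Real.norm_eq_abs, abs_of_nonneg (by positivity), abs_of_nonneg (by positivity)]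
    exact pow_le_pow_left₀ (norm_nonneg _) (Pool.Agent.R207.AG.VV_norm hf1 x) 2
  · refine Continuous.locallyIntegrable ?_
    exact (hcψ.abs).rpow_const fun x => Or.inr (by linarith)
  · intro η hη hc
    have h := Pool.Agent.R207.AG.weak_eq (f1 := f1) (C := C)
      (φ := fun r => ((f r) ^ (2 * p - 2) - 1 / r) * f r) (K := (K ^ (2 * p - 2) + 1) * K) hf1 hW
      (fun r hr => ?_) (fun r hr => ?_) hη hc
    · have h2 := h.2.2
      rw [← h2]
      congr 1
      refine integral_congr_ae (Filter.Eventually.of_forall fun x => ?_)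
      simp only
      rw [abs_of_pos (hpos _ (norm_nonneg x)), one_div]
    · have hfc := hl.continuous.continuousAt (x := r)
      refine ContinuousAt.mul (ContinuousAt.sub (hfc.rpow_const (Or.inr hα.le)) ?_) hfc
      exact continuousAt_const.div continuousAt_id hr.ne'
    · have h1 := hpos r hr.le
      have h2 := (hb r hr.le).2
      have h3 : (f r) ^ (2 * p - 2) ≤ K ^ (2 * p - 2) := Real.rpow_le_rpow h1.le h2 hα.le
      have h4 : 0 ≤ (f r) ^ (2 * p - 2) := Real.rpow_nonneg h1.le _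
      have h5 : 0 < 1 / r := by positivity
      have h6 : 0 ≤ K ^ (2 * p - 2) := Real.rpow_nonneg hK0.le _
      rw [abs_mul, abs_of_pos h1]
      have h7 : |(f r) ^ (2 * p - 2) - 1 / r| ≤ (K ^ (2 * p - 2) + 1) * (1 + 1 / r) := by
        rw [abs_le]
        constructor <;> nlinarith
      calc |(f r) ^ (2 * p - 2) - 1 / r| * f r ≤ ((K ^ (2 * p - 2) + 1) * (1 + 1 / r)) * K :=
            mul_le_mul h7 h2 h1.le (by positivity)
        _ = (K ^ (2 * p - 2) + 1) * K * (1 + 1 / r) := by ring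
  · intro x y hxy
    simp only [hxy]

end Pool.Agent.Results.MP_30ce6b_an.PositiveSolution
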